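import Pool.Agent.W845.HC.Base

/-!
Part HC-SUP: union of two random graphs, monotonicity.
-/

set_option autoImplicit false
open scoped Classical
open scoped BigOperators

namespace Pool.Agent.W335.HC

open Pool.Agent.W845.PM Pool.Agent.W845.HC

noncomputable section

/-- weight of a subset -/
def W {ι : Type} (p : ℝ) (s N : Finset ι) : ℝ := p ^ N.card * (1 - p) ^ (s.card - N.card)

lemma W_out {ι : Type} [DecidableEq ι] (p : ℝ) {s N : Finset ι} {a : ι} (ha : a ∉ s) (hN : N ∈ s.powerset) :
    W p (insert a s) N = (1 - p) * W p s N := by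
  have h1 : N.card ≤ s.card := Finset.card_le_card (Finset.mem_powerset.1 hN)
  unfold W
  rw [Finset.card_insert_of_notMem ha, Nat.succ_sub h1, pow_succ]
  ring

lemma W_in {ι : Type} [DecidableEq ι] (p : ℝ) {s N : Finset ι} {a : ι} (ha : a ∉ s) (hN : N ∈ s.powerset) :
    W p (insert a s) (insert a N) = p * W p s N := by
  have h1 : a ∉ N := fun h => ha (Finset.mem_powerset.1 hN h)
  unfold W
  rw [Finset.card_insert_of_notMem ha, Finset.card_insert_of_notMem h1, Nat.succ_sub_succ,
    pow_succ]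
  ring

theorem set_union {ι : Type} [DecidableEq ι] (p q : ℝ) (s : Finset ι) : ∀ f : Finset ι → ℝ,
    ∑ N ∈ s.powerset, ∑ N' ∈ s.powerset, W p s N * W q s N' * f (N ∪ N') =
      ∑ M ∈ s.powerset, W (p + q - p * q) s M * f M := by
  induction s using Finset.induction_on with
  | empty =>
    intro f
    simp [W]
  | insert a s ha ih =>
    intro f
    rw [Finset.sum_powerset_insert ha, Finset.sum_powerset_insert ha]
    have e1 : ∑ N ∈ s.powerset, ∑ N' ∈ (insert a s).powerset,
        W p (insert a s) N * W q (insert a s) N' * f (N ∪ N') =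
        (1 - p) * (1 - q) * ∑ N ∈ s.powerset, ∑ N' ∈ s.powerset, W p s N * W q s N' * f (N ∪ N') +
        (1 - p) * q * ∑ N ∈ s.powerset, ∑ N' ∈ s.powerset,
          W p s N * W q s N' * f (insert a (N ∪ N')) := by
      rw [Finset.mul_sum, Finset.mul_sum, ← Finset.sum_add_distrib]
      refine Finset.sum_congr rfl fun N hN => ?_
      rw [Finset.sum_powerset_insert ha, Finset.mul_sum, Finset.mul_sum]
      congr 1
      · refine Finset.sum_congr rfl fun N' hN' => ?_
        rw [W_out p ha hN, W_out q ha hN']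
        ring
      · refine Finset.sum_congr rfl fun N' hN' => ?_
        rw [W_out p ha hN, W_in q ha hN', Finset.union_insert]
        ring
    have e2 : ∑ N ∈ s.powerset, ∑ N' ∈ (insert a s).powerset,
        W p (insert a s) (insert a N) * W q (insert a s) N' * f (insert a N ∪ N') =
        p * (1 - q) * ∑ N ∈ s.powerset, ∑ N' ∈ s.powerset,
          W p s N * W q s N' * f (insert a (N ∪ N')) +
        p * q * ∑ N ∈ s.powerset, ∑ N' ∈ s.powerset,
          W p s N * W q s N' * f (insert a (N ∪ N')) := by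
      rw [Finset.mul_sum, Finset.mul_sum, ← Finset.sum_add_distrib]
      refine Finset.sum_congr rfl fun N hN => ?_
      rw [Finset.sum_powerset_insert ha, Finset.mul_sum, Finset.mul_sum]
      congr 1
      · refine Finset.sum_congr rfl fun N' hN' => ?_
        rw [W_in p ha hN, W_out q ha hN', Finset.insert_union]
        ring
      · refine Finset.sum_congr rfl fun N' hN' => ?_
        rw [W_in p ha hN, W_in q ha hN', Finset.insert_union, Finset.union_insert,
          Finset.insert_idem]
        ring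
    have e3 : ∑ M ∈ s.powerset, W (p + q - p * q) (insert a s) M * f M =
        (1 - (p + q - p * q)) * ∑ N ∈ s.powerset, ∑ N' ∈ s.powerset,
          W p s N * W q s N' * f (N ∪ N') := by
      rw [ih, Finset.mul_sum]
      refine Finset.sum_congr rfl fun M hM => ?_
      rw [W_out _ ha hM]
      ring
    have e4 : ∑ M ∈ s.powerset, W (p + q - p * q) (insert a s) (insert a M) * f (insert a M) =
        (p + q - p * q) * ∑ N ∈ s.powerset, ∑ N' ∈ s.powerset,
          W p s N * W q s N' * f (insert a (N ∪ N')) := by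
      rw [ih fun M => f (insert a M), Finset.mul_sum]
      refine Finset.sum_congr rfl fun M hM => ?_
      rw [W_in _ ha hM]
      ring
    rw [e1, e2, e3, e4]
    ring

theorem ws_union (n : ℕ) (p q : ℝ) (f : Finset (Fin n) → ℝ) :
    ∑ N, ∑ N', ws n p N * ws n q N' * f (N ∪ N') = ∑ M, ws n (p + q - p * q) M * f M := by
  have h := set_union p q (Finset.univ : Finset (Fin n)) f
  simp only [Finset.powerset_univ] at h
  have hW : ∀ (p : ℝ) (N : Finset (Fin n)), W p Finset.univ N = ws n p N := by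
    intro p N
    unfold W ws
    rw [Finset.card_univ, Fintype.card_fin]
  simpa only [hW] using h

lemma ext_sup {n : ℕ} (K K' : SimpleGraph (Fin n)) (N N' : Finset (Fin n)) :
    ext K N ⊔ ext K' N' = ext (K ⊔ K') (N ∪ N') := by
  ext a b
  simp only [SimpleGraph.sup_adj, ext, Finset.mem_union]
  constructor
  · rintro ((⟨x, y, hx, hy, h⟩ | ⟨ha, y, hy, hb⟩ | ⟨hb, x, hx, ha⟩) |
      (⟨x, y, hx, hy, h⟩ | ⟨ha, y, hy, hb⟩ | ⟨hb, x, hx, ha⟩))
    · exact Or.inl ⟨x, y, hx, hy, Or.inl h⟩
    · exact Or.inr (Or.inl ⟨ha, y, Or.inl hy, hb⟩)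
    · exact Or.inr (Or.inr ⟨hb, x, Or.inl hx, ha⟩)
    · exact Or.inl ⟨x, y, hx, hy, Or.inr h⟩
    · exact Or.inr (Or.inl ⟨ha, y, Or.inr hy, hb⟩)
    · exact Or.inr (Or.inr ⟨hb, x, Or.inr hx, ha⟩)
  · rintro (⟨x, y, hx, hy, h⟩ | ⟨ha, y, hy, hb⟩ | ⟨hb, x, hx, ha⟩)
    · rcases h with h | h
      · exact Or.inl (Or.inl ⟨x, y, hx, hy, h⟩)
      · exact Or.inr (Or.inl ⟨x, y, hx, hy, h⟩)
    · rcases hy with hy | hy
      · exact Or.inl (Or.inr (Or.inl ⟨ha, y, hy, hb⟩))
      · exact Or.inr (Or.inr (Or.inl ⟨ha, y, hy, hb⟩))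
    · rcases hx with hx | hx
      · exact Or.inl (Or.inr (Or.inr ⟨hb, x, hx, ha⟩))
      · exact Or.inr (Or.inr (Or.inr ⟨hb, x, hx, ha⟩))

lemma EG_zero (p : ℝ) (F : SimpleGraph (Fin 0) → ℝ) : EG 0 p F = F ⊥ := by
  unfold EG
  rw [Fintype.sum_eq_single ⊥]
  · unfold wt
    simp
  · intro G hG
    exact absurd (Subsingleton.elim G ⊥) hG

theorem sup_thm : S_SUP := by
  intro n
  induction n with
  | zero =>
    intro p q f
    rw [EG_zero, EG_zero, EG_zero]
    simp
  | succ n ih =>
    intro p q f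
    rw [extT, extT n (p + q - p * q) f, ← ws_union]
    refine Finset.sum_congr rfl fun N _ => ?_
    have h1 : ∀ K : SimpleGraph (Fin n), EG (n + 1) q (fun G' => f (ext K N ⊔ G')) =
        ∑ N', ws n q N' * EG n q (fun K' => f (ext (K ⊔ K') (N ∪ N'))) := by
      intro K
      rw [extT]
      simp_rw [ext_sup]
    simp_rw [h1]
    rw [EG_sum, Finset.mul_sum]
    refine Finset.sum_congr rfl fun N' _ => ?_
    rw [EG_mul_left, ih p q fun K => f (ext K (N ∪ N'))]
    ring

theorem mon : S_SUP → S_MON := by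
  intro hsup n p p' f h0 hpp h1 hf
  rcases eq_or_lt_of_le (hpp.trans h1) with h2 | h2
  · have h3 : p' = p := le_antisymm (h2 ▸ h1) hpp
    rw [h3]
  · have h3 : (0 : ℝ) < 1 - p := by linarith
    set q := (p' - p) / (1 - p) with hq
    have hq0 : 0 ≤ q := div_nonneg (by linarith) h3.le
    have hq1 : q ≤ 1 := by
      rw [hq, div_le_one h3]
      linarith
    have h4 : p + q - p * q = p' := by
      have : q * (1 - p) = p' - p := div_mul_cancel₀ _ h3.ne'
      linarith
    rw [← h4, ← hsup n p q f]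
    refine EG_mono h0 h2.le fun G => ?_
    calc f G = EG n q (fun _ => f G) := (EG_const oneT n q (f G)).symm
      _ ≤ EG n q (fun G' => f (G ⊔ G')) := EG_mono hq0 hq1 fun G' => hf _ _ le_sup_left

end

end Pool.Agent.W335.HC
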